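import Pool.Agent.Helper29.R9.PR9

/-! # Collisions, general form: `k` parameters, boxes `P`, `R`, and a set `Z` of pairs `(a, a')` -/

set_option autoImplicit false

namespace Pool.Helper34.R9

open Pool.Helper17.R8 (ST_CURVE)
open Polynomial

open Classical in
/-- the number of pairs of members with the same `(A, B)` is at most
`800 |Z| + 10 |P| |R|`, if `(T.1, T'.1) ∈ Z` for all such pairs with `T.1 ≠ T'.1`. -/
theorem pairs_general (hCURVE : ST_CURVE) {ι : Type*} (M κ zb : ℤ) (f g : ι → ℚ[X])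
    (E : ι → ℤ) (A B tt : ι × ℕ → ℤ) (hM : M ≠ 0)
    (hf : ∀ a, (f a).natDegree = 3) (hg : ∀ a, (g a).natDegree = 5)
    (hlead : ∀ a a', (g a).leadingCoeff = (g a').leadingCoeff)
    (hrel : ∀ T, κ * tt T = E T.1 - (zb + M * (T.2 : ℤ)) ^ 2)
    (hA : ∀ T T', A T = A T' → (f T.1).eval (tt T : ℚ) = (f T'.1).eval (tt T' : ℚ))
    (hB : ∀ T T', B T = B T' → (g T.1).eval (tt T : ℚ) = (g T'.1).eval (tt T' : ℚ))
    (hinj : ∀ T T', (f T'.1).comp (X + C ((tt T' - tt T : ℤ) : ℚ)) = f T.1 →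
      (g T'.1).comp (X + C ((tt T' - tt T : ℤ) : ℚ)) = g T.1 → T.1 = T'.1)
    (P : Finset ι) (R : Finset ℕ) (Z : Finset (ι × ι))
    (hZ : ∀ T ∈ P ×ˢ R, ∀ T' ∈ P ×ˢ R, T.1 ≠ T'.1 → A T = A T' → B T = B T' →
      (T.1, T'.1) ∈ Z) :
    (((P ×ˢ R) ×ˢ (P ×ˢ R)).filter (fun p => A p.1 = A p.2 ∧ B p.1 = B p.2)).card ≤
      800 * Z.card + 10 * (P.card * R.card) := by
  have two : ∀ (a : ι) (t : ℤ) (R : Finset ℕ),
      (R.filter (fun b => tt (a, b) = t)).card ≤ 2 := fun a t R =>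
    S29.two_to_one M κ zb (E a) hM (fun b => tt (a, b)) (fun b => hrel (a, b)) t R
  set F := ((P ×ˢ R) ×ˢ (P ×ˢ R)).filter (fun p => A p.1 = A p.2 ∧ B p.1 = B p.2) with hF
  have hbox : ∀ p ∈ F, (p.1.1 ∈ P ∧ p.1.2 ∈ R) ∧ (p.2.1 ∈ P ∧ p.2.2 ∈ R) := by
    intro p hp
    obtain ⟨h1, h2⟩ := Finset.mem_product.1 (Finset.mem_filter.1 hp).1
    exact ⟨Finset.mem_product.1 h1, Finset.mem_product.1 h2⟩
  set D : Finset (ι × ι) := P.image (fun a => (a, a)) with hD
  have hDc : D.card ≤ P.card := Finset.card_image_le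
  have hmap : ∀ p ∈ F, (p.1.1, p.2.1) ∈ Z ∪ D := by
    intro p hp
    obtain ⟨h1, h2⟩ := Finset.mem_product.1 (Finset.mem_filter.1 hp).1
    obtain ⟨h3, h4⟩ := (Finset.mem_filter.1 hp).2
    by_cases hx : p.1.1 = p.2.1
    · refine Finset.mem_union_right _ (Finset.mem_image.2 ⟨p.1.1, (hbox p hp).1.1, ?_⟩)
      rw [← hx]
    · exact Finset.mem_union_left _ (hZ p.1 h1 p.2 h2 hx h3 h4)
  have hIJ : ∀ p ∈ F, (f p.1.1).eval (tt p.1 : ℚ) = (f p.2.1).eval (tt p.2 : ℚ) ∧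
      (g p.1.1).eval (tt p.1 : ℚ) = (g p.2.1).eval (tt p.2 : ℚ) := by
    intro p hp
    obtain ⟨h1, h2⟩ := (Finset.mem_filter.1 hp).2
    exact ⟨hA _ _ h1, hB _ _ h2⟩
  rw [Finset.card_eq_sum_card_fiberwise hmap]
  have hfib : ∀ x ∈ Z ∪ D, (F.filter (fun p => (p.1.1, p.2.1) = x)).card ≤
      (if x ∈ Z then 800 else 0) + (if x ∈ D then 10 * R.card else 0) := by
    intro x hxu
    have hinj' : Set.InjOn (fun p : (ι × ℕ) × (ι × ℕ) => (p.1.2, p.2.2))
        (F.filter (fun p => (p.1.1, p.2.1) = x) : Set _) := by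
      intro p hp p' hp' h
      have h1 := (Finset.mem_filter.1 hp).2
      have h2 := (Finset.mem_filter.1 hp').2
      have h3 := h1.trans h2.symm
      obtain ⟨⟨p1, p2⟩, ⟨p3, p4⟩⟩ := p
      obtain ⟨⟨q1, q2⟩, ⟨q3, q4⟩⟩ := p'
      simp only [Prod.mk.injEq] at h h3 ⊢
      exact ⟨⟨h3.1, h.1⟩, ⟨h3.2, h.2⟩⟩
    by_cases hxD : x ∈ D
    · rw [if_pos hxD]
      refine le_trans ?_ (Nat.le_add_left _ _)
      obtain ⟨a, -, rfl⟩ := Finset.mem_image.1 hxD
      have hd := S29.diag_pairs (g a) (hg a) (fun b => tt (a, b)) R (fun t => two a t _)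
      refine le_trans ?_ hd
      refine Finset.card_le_card_of_injOn _ ?_ hinj'
      intro p hp
      obtain ⟨hpF, hpx⟩ := Finset.mem_filter.1 hp
      have h1 : p.1.1 = a := congrArg Prod.fst hpx
      have h2 : p.2.1 = a := congrArg Prod.snd hpx
      obtain ⟨-, h4⟩ := hIJ p hpF
      have hb := hbox p hpF
      simp only [Finset.coe_filter, Set.mem_ofPred_eq]
      refine ⟨Finset.mem_product.2 ⟨hb.1.2, hb.2.2⟩, ?_⟩
      obtain ⟨⟨p1, p2⟩, ⟨p3, p4⟩⟩ := p
      simp only at h1 h2 h4 ⊢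
      subst h1
      subst h2
      exact h4
    · have hxZ : x ∈ Z := (Finset.mem_union.1 hxu).resolve_right hxD
      rw [if_pos hxZ, if_neg hxD, add_zero]
      by_cases hx : x.1 = x.2
      · have : F.filter (fun p => (p.1.1, p.2.1) = x) = ∅ := by
          refine Finset.filter_eq_empty_iff.2 ?_
          intro p hp hpx
          apply hxD
          refine Finset.mem_image.2 ⟨p.1.1, (hbox p hp).1.1, ?_⟩
          have h1 : p.1.1 = x.1 := congrArg Prod.fst hpx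
          rw [h1]
          exact Prod.ext rfl hx
        rw [this]
        simp
      have hd := S29.off_pairs hCURVE (f x.1) (f x.2) (g x.1) (g x.2) (hf _) (hf _) (hg _) (hg _)
        (hlead _ _) (fun b => tt (x.1, b)) (fun b => tt (x.2, b)) R
        (fun t => two x.1 t _) (fun t => two x.2 t _)
        (fun b b' h => hx (hinj (x.1, b) (x.2, b') h.1 h.2))
      refine le_trans ?_ hd
      refine Finset.card_le_card_of_injOn _ ?_ hinj'
      intro p hp
      obtain ⟨hpF, hpx⟩ := Finset.mem_filter.1 hp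
      have h1 : p.1.1 = x.1 := congrArg Prod.fst hpx
      have h2 : p.2.1 = x.2 := congrArg Prod.snd hpx
      have h4 := hIJ p hpF
      have hb := hbox p hpF
      simp only [Finset.coe_filter, Set.mem_ofPred_eq]
      refine ⟨Finset.mem_product.2 ⟨hb.1.2, hb.2.2⟩, ?_⟩
      obtain ⟨⟨p1, p2⟩, ⟨p3, p4⟩⟩ := p
      simp only at h1 h2 h4 ⊢
      rw [← h1, ← h2]
      exact h4
  refine (Finset.sum_le_sum hfib).trans ?_
  rw [Finset.sum_add_distrib, Finset.sum_ite_mem, Finset.sum_ite_mem, Finset.sum_const,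
    Finset.sum_const, Finset.union_inter_cancel_left, Finset.union_inter_cancel_right]
  simp only [smul_eq_mul]
  have h7 : D.card * (10 * R.card) ≤ P.card * (10 * R.card) := Nat.mul_le_mul_right _ hDc
  calc Z.card * 800 + D.card * (10 * R.card) ≤ Z.card * 800 + P.card * (10 * R.card) := by omega
    _ = 800 * Z.card + 10 * (P.card * R.card) := by ring

end Pool.Helper34.R9
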