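import Pool.Agent.Helper34.R9.SheetB
import Pool.Agent.Helper29.R9.PRG
import Pool.Agent.Helper29.R8.PAIR

set_option autoImplicit false

namespace Pool.Helper34.R9

open Pool.Helper17.R8 (ek fI fJ pI pJ ss ub ST_CURVE ST_INJ)
open Pool.Helper29.R8 (e2_ne eval_pI eval_pJ natDegree_pI natDegree_pJ cast_fI cast_fJ)
open Polynomial

open Classical in
theorem st_PRG (hCURVE : ST_CURVE) : ST_PRG := by
  intro k l M κ zb f g E A B tt hM hf hg hlead hrel hA hB hinj m PP hPP
  set P : Finset (Fin k → ℕ) := Fintype.piFinset fun _ => Finset.range m with hPdef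
  have hP : P.card = m ^ k := by simp [hPdef]
  have h := pairs_general hCURVE M κ (zb m) f g E (A m) (B m) (tt m) hM hf hg hlead (hrel m)
    (hA m) (hB m) (hinj m) P (Finset.range (m ^ l)) PP
    (fun T hT T' hT' _ h1 h2 => hPP T hT T' hT' h1 h2)
  rw [hP, Finset.card_range, ← pow_add] at h
  refine le_trans h ?_
  omega

theorem S29.uB_inj (a a' : Fin 6 → ℕ) (h : uB a = uB a') : a = a' := by
  have hM := MB_pos
  have h0 : a 0 = a' 0 := by
    have h1 := congrFun h 0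
    simp only [uB, if_true, zero_add] at h1
    have h2 : MB * (a 0 : ℤ) = MB * (a' 0 : ℤ) := by linarith
    exact_mod_cast mul_left_cancel₀ hM.ne' h2
  funext i
  by_cases hi : i = 0
  · rw [hi, h0]
  · have h1 := congrFun h i
    simp only [uB, if_neg hi] at h1
    rw [h0] at h1
    have h2 : MB * (a i : ℤ) = MB * (a' i : ℤ) := by linarith
    exact_mod_cast mul_left_cancel₀ hM.ne' h2

open Classical in
theorem st_PAIRB (hPRG : ST_PRG) (hREL : ST_RELB) (hWIN : ST_WINB) (hPR2 : ST_PR2B)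
    (hINJ : ST_INJ) : ST_PAIRB := by
  intro ε hε
  obtain ⟨K, hK, hwin⟩ := hWIN
  obtain ⟨C0, hC0, hpr⟩ := hPR2 K ε hε
  refine ⟨1000 * C0 + 1000, by positivity, ?_⟩
  intro m hm
  have hcong : ∀ a : Fin 6 → ℕ, Pool.Helper17.R8.Cong (uB a, 3) := by
    intro a
    refine ⟨fun i => MM_dvd_MB.trans ((hREL m (a, 0)).1 i), ?_⟩
    exact ⟨0, by ring⟩
  have he2 : ∀ a : Fin 6 → ℕ, ((ek (ss (uB a)) 2 : ℤ) : ℚ) ≠ 0 := fun a =>
    Int.cast_ne_zero.2 (e2_ne (uB a, 3) (hcong a))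
  have hI : ∀ (m : ℕ) (T T' : (Fin 6 → ℕ) × ℕ), aB m T = aB m T' →
      fI (ek (ss (uB T.1))) (tB m T) = fI (ek (ss (uB T'.1))) (tB m T') := by
    intro m T T' h
    obtain ⟨-, -, -, h1, -⟩ := hREL m T
    obtain ⟨-, -, -, h2, -⟩ := hREL m T'
    rw [h] at h1
    linarith
  have hJ : ∀ (m : ℕ) (T T' : (Fin 6 → ℕ) × ℕ), bB m T = bB m T' →
      fJ (ek (ss (uB T.1))) (tB m T) = fJ (ek (ss (uB T'.1))) (tB m T') := by
    intro m T T' h
    obtain ⟨-, -, -, -, h1, -⟩ := hREL m T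
    obtain ⟨-, -, -, -, h2, -⟩ := hREL m T'
    rw [h] at h1
    linarith
  set PP : Finset ((Fin 6 → ℕ) × (Fin 6 → ℕ)) :=
    (((Fintype.piFinset fun _ : Fin 6 => Finset.range m) ×ˢ
    (Fintype.piFinset fun _ : Fin 6 => Finset.range m)).filter (fun p =>
      |ek (ss (uB p.1)) 2 - ek (ss (uB p.2)) 2| ≤ K)) with hPP
  have hmain := hPRG 6 4 MB 4 zB (fun a => pI (fun k => ((ek (ss (uB a)) k : ℤ) : ℚ)))
    (fun a => pJ (fun k => ((ek (ss (uB a)) k : ℤ) : ℚ)))
    (fun a => EB (ek (ss (uB a))) (ss (uB a) 7)) aB bB tB MB_pos.ne'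
    (fun a => natDegree_pI _ (he2 a)) (fun a => (natDegree_pJ _).1)
    (fun a a' => by rw [(natDegree_pJ _).2, (natDegree_pJ _).2])
    (fun m T => (hREL m T).2.1)
    (by
      intro m T T' h
      simp only [eval_pI]
      rw [← cast_fI, ← cast_fI, hI m T T' h])
    (by
      intro m T T' h
      simp only [eval_pJ]
      rw [← cast_fJ, ← cast_fJ, hJ m T T' h])
    (by
      intro m T T' hf hg
      have h29 : (29 : ℤ) ∣ tB m T' - tB m T := by
        obtain ⟨-, -, -, -, -, h1, -⟩ := hREL m T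
        obtain ⟨-, -, -, -, -, h2, -⟩ := hREL m T'
        have h3 : ((QB.factorial : ℕ) : ℤ) ∣ tB m T' - tB m T := by
          have h4 := dvd_sub h2 h1
          have h5 : tB m T' + 794007 - (tB m T + 794007) = tB m T' - tB m T := by ring
          rwa [h5] at h4
        have h6 : 29 ∣ Nat.factorial QB := Nat.dvd_factorial (by norm_num) (by
          unfold QB; norm_num)
        exact (show (29 : ℤ) ∣ ((QB.factorial : ℕ) : ℤ) from
          Int.natCast_dvd_natCast.2 h6).trans h3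
      have hkey : ∀ τ : ℤ, fI (ek (ss (uB T'.1))) (τ + (tB m T' - tB m T)) =
          fI (ek (ss (uB T.1))) τ ∧ fJ (ek (ss (uB T'.1))) (τ + (tB m T' - tB m T)) =
          fJ (ek (ss (uB T.1))) τ := by
        intro τ
        constructor
        · have h := congrArg (fun P : ℚ[X] => P.eval (τ : ℚ)) hf
          simp only [eval_comp, eval_add, eval_X, eval_C, eval_pI] at h
          have h' : ((fI (ek (ss (uB T'.1))) (τ + (tB m T' - tB m T)) : ℤ) : ℚ) =
              ((fI (ek (ss (uB T.1))) τ : ℤ) : ℚ) := by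
            rw [cast_fI, cast_fI, Int.cast_add]
            exact h
          exact Int.cast_injective h'
        · have h := congrArg (fun P : ℚ[X] => P.eval (τ : ℚ)) hg
          simp only [eval_comp, eval_add, eval_X, eval_C, eval_pJ] at h
          have h' : ((fJ (ek (ss (uB T'.1))) (τ + (tB m T' - tB m T)) : ℤ) : ℚ) =
              ((fJ (ek (ss (uB T.1))) τ : ℤ) : ℚ) := by
            rw [cast_fJ, cast_fJ, Int.cast_add]
            exact h
          exact Int.cast_injective h'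
      exact S29.uB_inj _ _ (hINJ (uB T.1, 3) (uB T'.1, 3) (hcong _) (hcong _) _ h29 hkey))
    m PP (by
      intro T hT T' hT' h1 h2
      refine Finset.mem_filter.2 ⟨Finset.mem_product.2
        ⟨(Finset.mem_product.1 hT).1, (Finset.mem_product.1 hT').1⟩, ?_⟩
      exact hwin m hm T hT T' hT' h1 h2)
  have h1 : (((BoxG 6 4 m ×ˢ BoxG 6 4 m).filter (fun p => aB m p.1 = aB m p.2 ∧
      bB m p.1 = bB m p.2)).card : ℝ) ≤ 1000 * (PP.card : ℝ) + 1000 * (m : ℝ) ^ (6 + 4) := by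
    exact_mod_cast hmain
  have h2 : (PP.card : ℝ) ≤ C0 * (m : ℝ) ^ (10 + ε) := hpr m hm
  have h3 : (m : ℝ) ^ (6 + 4) ≤ (m : ℝ) ^ (10 + ε) := by
    have hm1 : (1 : ℝ) ≤ m := by exact_mod_cast hm
    calc (m : ℝ) ^ (6 + 4) = (m : ℝ) ^ ((10 : ℕ) : ℝ) := by rw [Real.rpow_natCast]
      _ ≤ (m : ℝ) ^ (10 + ε) := by
        apply Real.rpow_le_rpow_of_exponent_le hm1
        push_cast
        linarith
  calc (((BoxG 6 4 m ×ˢ BoxG 6 4 m).filter (fun p => aB m p.1 = aB m p.2 ∧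
      bB m p.1 = bB m p.2)).card : ℝ) ≤ 1000 * (PP.card : ℝ) + 1000 * (m : ℝ) ^ (6 + 4) := h1
    _ ≤ 1000 * (C0 * (m : ℝ) ^ (10 + ε)) + 1000 * (m : ℝ) ^ (10 + ε) := by gcongr
    _ = (1000 * C0 + 1000) * (m : ℝ) ^ (10 + ε) := by ring

end Pool.Helper34.R9
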