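import Pool.Agent.Helper34.R9.Sheet

set_option autoImplicit false

namespace Pool.Helper34.R9.S29

open Pool.Helper17.R8 (ST_CURVE)
open Polynomial

open Classical in
theorem two_to_one (M κ zb s : ℤ) (hM : M ≠ 0) (tt : ℕ → ℤ)
    (hrel : ∀ b : ℕ, κ * tt b = s - (zb + M * (b : ℤ)) ^ 2) (t : ℤ) (R : Finset ℕ) :
    (R.filter (fun b => tt b = t)).card ≤ 2 := by
  set Q : ℤ[X] := X ^ 2 - C (s - κ * t) with hQ
  have hmon : Q.Monic := monic_X_pow_sub_C _ (by norm_num)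
  have hd : Q.natDegree = 2 := natDegree_X_pow_sub_C
  have h1 : (R.filter (fun b => tt b = t)).card ≤ Q.roots.toFinset.card := by
    refine Finset.card_le_card_of_injOn (fun b : ℕ => zb + M * (b : ℤ)) ?_ ?_
    · intro b hb
      have hb' := (Finset.mem_filter.1 hb).2
      have h2 := hrel b
      rw [hb'] at h2
      simp only [Finset.mem_coe, Multiset.mem_toFinset]
      rw [mem_roots hmon.ne_zero, IsRoot, hQ, eval_sub, eval_C, eval_pow, eval_X]
      linarith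
    · intro b _ b' _ hbb
      have h2 : M * (b : ℤ) = M * (b' : ℤ) := by
        have : zb + M * (b : ℤ) = zb + M * (b' : ℤ) := hbb
        linarith
      exact_mod_cast mul_left_cancel₀ hM h2
  exact h1.trans ((Multiset.toFinset_card_le _).trans ((card_roots' Q).trans hd.le))

open Classical in
theorem diag_one (g : ℚ[X]) (hg : g.natDegree = 5) (tt : ℕ → ℤ) (R : Finset ℕ)
    (h2 : ∀ t : ℤ, (R.filter (fun b => tt b = t)).card ≤ 2) (c : ℚ) :
    (R.filter (fun b => g.eval (tt b : ℚ) = c)).card ≤ 10 := by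
  set G := R.filter (fun b => g.eval (tt b : ℚ) = c) with hG
  set Q : ℚ[X] := g - C c with hQ
  have hd : Q.natDegree = 5 := by rw [hQ, natDegree_sub_C, hg]
  have hQ0 : Q ≠ 0 := by
    intro h
    rw [h] at hd
    simp at hd
  have h3 : G.card ≤ 2 * (G.image tt).card := by
    refine Finset.card_le_mul_card_image G 2 ?_
    intro t _
    refine le_trans (Finset.card_le_card ?_) (h2 t)
    intro b hb
    obtain ⟨hb1, hb2⟩ := Finset.mem_filter.1 hb
    exact Finset.mem_filter.2 ⟨(Finset.mem_filter.1 hb1).1, hb2⟩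
  have h4 : (G.image tt).card ≤ Q.roots.toFinset.card := by
    refine Finset.card_le_card_of_injOn (fun t : ℤ => (t : ℚ)) ?_ ?_
    · intro t ht
      obtain ⟨b, hb, rfl⟩ := Finset.mem_image.1 (Finset.mem_coe.1 ht)
      have hb' := (Finset.mem_filter.1 hb).2
      simp only [Finset.mem_coe, Multiset.mem_toFinset]
      rw [mem_roots hQ0, IsRoot, hQ, eval_sub, eval_C, hb', sub_self]
    · intro t _ t' _ h
      exact Int.cast_injective h
  have h5 : (G.image tt).card ≤ 5 :=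
    h4.trans ((Multiset.toFinset_card_le _).trans ((card_roots' Q).trans hd.le))
  omega

open Classical in
theorem diag_pairs (g : ℚ[X]) (hg : g.natDegree = 5) (tt : ℕ → ℤ) (R : Finset ℕ)
    (h2 : ∀ t : ℤ, (R.filter (fun b => tt b = t)).card ≤ 2) :
    ((R ×ˢ R).filter
      (fun y : ℕ × ℕ => g.eval (tt y.1 : ℚ) = g.eval (tt y.2 : ℚ))).card ≤ 10 * R.card := by
  set G := (R ×ˢ R).filter
      (fun y : ℕ × ℕ => g.eval (tt y.1 : ℚ) = g.eval (tt y.2 : ℚ)) with hG
  have h1 : G.card ≤ 10 * (G.image Prod.fst).card := by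
    refine Finset.card_le_mul_card_image G 10 ?_
    intro b _
    refine le_trans ?_ (diag_one g hg tt R h2 (g.eval (tt b : ℚ)))
    refine Finset.card_le_card_of_injOn Prod.snd ?_ ?_
    · intro y hy
      obtain ⟨hy1, hy2⟩ := Finset.mem_filter.1 hy
      obtain ⟨hy3, hy4⟩ := Finset.mem_filter.1 hy1
      simp only [Finset.coe_filter, Set.mem_ofPred_eq]
      refine ⟨(Finset.mem_product.1 hy3).2, ?_⟩
      rw [← hy4, hy2]
    · intro y hy y' hy' h
      have h3 := (Finset.mem_filter.1 hy).2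
      have h4 := (Finset.mem_filter.1 hy').2
      exact Prod.ext (h3.trans h4.symm) h
  refine h1.trans (Nat.mul_le_mul_left 10 (Finset.card_le_card ?_))
  intro b hb
  obtain ⟨y, hy, rfl⟩ := Finset.mem_image.1 hb
  exact (Finset.mem_product.1 (Finset.mem_filter.1 hy).1).1

open Classical in
theorem off_pairs (hCURVE : ST_CURVE) (f f' g g' : ℚ[X]) (hf : f.natDegree = 3)
    (hf' : f'.natDegree = 3) (hg : g.natDegree = 5) (hg' : g'.natDegree = 5)
    (hl : g.leadingCoeff = g'.leadingCoeff) (tt tt' : ℕ → ℤ) (R : Finset ℕ)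
    (h2 : ∀ t : ℤ, (R.filter (fun b => tt b = t)).card ≤ 2)
    (h2' : ∀ t : ℤ, (R.filter (fun b => tt' b = t)).card ≤ 2)
    (hno : ∀ b b' : ℕ, ¬ (f'.comp (X + C ((tt' b' - tt b : ℤ) : ℚ)) = f ∧
      g'.comp (X + C ((tt' b' - tt b : ℤ) : ℚ)) = g)) :
    ((R ×ˢ R).filter (fun y : ℕ × ℕ => f.eval (tt y.1 : ℚ) = f'.eval (tt' y.2 : ℚ) ∧
      g.eval (tt y.1 : ℚ) = g'.eval (tt' y.2 : ℚ))).card ≤ 800 := by
  set G := (R ×ˢ R).filter (fun y : ℕ × ℕ => f.eval (tt y.1 : ℚ) = f'.eval (tt' y.2 : ℚ) ∧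
      g.eval (tt y.1 : ℚ) = g'.eval (tt' y.2 : ℚ)) with hG
  set φ : ℕ × ℕ → ℚ × ℚ := fun y => ((tt y.1 : ℚ), (tt' y.2 : ℚ)) with hφ
  have h3 : G.card ≤ 4 * (G.image φ).card := by
    refine Finset.card_le_mul_card_image G 4 ?_
    intro p hp
    obtain ⟨y0, hy0, rfl⟩ := Finset.mem_image.1 hp
    have h5 : (G.filter (fun y => φ y = φ y0)).card ≤
        ((R.filter (fun b => tt b = tt y0.1)) ×ˢ (R.filter (fun b => tt' b = tt' y0.2))).card := by
      refine Finset.card_le_card ?_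
      intro y hy
      obtain ⟨hy1, hy2⟩ := Finset.mem_filter.1 hy
      have hy3 := Finset.mem_product.1 (Finset.mem_filter.1 hy1).1
      have e1 : ((tt y.1 : ℤ) : ℚ) = ((tt y0.1 : ℤ) : ℚ) := congrArg Prod.fst hy2
      have e2 : ((tt' y.2 : ℤ) : ℚ) = ((tt' y0.2 : ℤ) : ℚ) := congrArg Prod.snd hy2
      exact Finset.mem_product.2 ⟨Finset.mem_filter.2 ⟨hy3.1, Int.cast_injective e1⟩,
        Finset.mem_filter.2 ⟨hy3.2, Int.cast_injective e2⟩⟩
    rw [Finset.card_product] at h5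
    exact h5.trans (Nat.mul_le_mul (h2 _) (h2' _))
  have h4 : (G.image φ).card ≤ 200 := by
    by_contra hcon
    push Not at hcon
    have hS : ∀ p ∈ G.image φ, f.eval p.1 = f'.eval p.2 ∧ g.eval p.1 = g'.eval p.2 := by
      intro p hp
      obtain ⟨y, hy, rfl⟩ := Finset.mem_image.1 hp
      exact (Finset.mem_filter.1 hy).2
    obtain ⟨β, hc1, hc2, p, hp, hpβ⟩ := hCURVE f f' g g' hf hf' hg hg' hl (G.image φ) hS hcon.le
    obtain ⟨y, hy, rfl⟩ := Finset.mem_image.1 hp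
    have hβ : β = ((tt' y.2 - tt y.1 : ℤ) : ℚ) := by
      have : ((tt' y.2 : ℤ) : ℚ) = ((tt y.1 : ℤ) : ℚ) + β := hpβ
      push_cast
      linarith
    rw [hβ] at hc1 hc2
    exact hno y.1 y.2 ⟨hc1, hc2⟩
  omega

end Pool.Helper34.R9.S29

namespace Pool.Helper34.R9

open Pool.Helper17.R8 (ST_CURVE)

open Classical in
theorem st_PR9 (hCURVE : ST_CURVE) : ST_PR9 := by
  intro M κ zb f g E A B tt hM hf hg hlead hrel hA hB hinj m hm
  have two : ∀ (a : Fin 3 → ℕ) (t : ℤ) (R : Finset ℕ),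
      (R.filter (fun b => tt (a, b) = t)).card ≤ 2 := fun a t R =>
    S29.two_to_one M κ zb (E a) hM (fun b => tt (a, b)) (fun b => hrel (a, b)) t R
  set P : Finset (Fin 3 → ℕ) := Fintype.piFinset fun _ : Fin 3 => Finset.range m with hPdef
  have hP : P.card = m ^ 3 := by simp [hPdef]
  set F := (Box m ×ˢ Box m).filter (fun p => A p.1 = A p.2 ∧ B p.1 = B p.2) with hF
  have hbox : ∀ p ∈ F, (p.1.1 ∈ P ∧ p.1.2 ∈ Finset.range (m ^ 3)) ∧
      (p.2.1 ∈ P ∧ p.2.2 ∈ Finset.range (m ^ 3)) := by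
    intro p hp
    obtain ⟨h1, h2⟩ := Finset.mem_product.1 (Finset.mem_filter.1 hp).1
    exact ⟨Finset.mem_product.1 h1, Finset.mem_product.1 h2⟩
  have hmap : ∀ p ∈ F, (p.1.1, p.2.1) ∈ P ×ˢ P := fun p hp =>
    Finset.mem_product.2 ⟨(hbox p hp).1.1, (hbox p hp).2.1⟩
  have hIJ : ∀ p ∈ F, (f p.1.1).eval (tt p.1 : ℚ) = (f p.2.1).eval (tt p.2 : ℚ) ∧
      (g p.1.1).eval (tt p.1 : ℚ) = (g p.2.1).eval (tt p.2 : ℚ) := by
    intro p hp
    obtain ⟨h1, h2⟩ := (Finset.mem_filter.1 hp).2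
    exact ⟨hA _ _ h1, hB _ _ h2⟩
  rw [Finset.card_eq_sum_card_fiberwise hmap]
  have hfib : ∀ x ∈ P ×ˢ P, (F.filter (fun p => (p.1.1, p.2.1) = x)).card ≤
      800 + (if x.1 = x.2 then 10 * m ^ 3 else 0) := by
    intro x _
    have hinj' : Set.InjOn (fun p : ((Fin 3 → ℕ) × ℕ) × ((Fin 3 → ℕ) × ℕ) => (p.1.2, p.2.2))
        (F.filter (fun p => (p.1.1, p.2.1) = x) : Set _) := by
      intro p hp p' hp' h
      have h1 := (Finset.mem_filter.1 hp).2
      have h2 := (Finset.mem_filter.1 hp').2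
      have h3 := h1.trans h2.symm
      obtain ⟨⟨p1, p2⟩, ⟨p3, p4⟩⟩ := p
      obtain ⟨⟨q1, q2⟩, ⟨q3, q4⟩⟩ := p'
      simp only [Prod.mk.injEq] at h h3 ⊢
      exact ⟨⟨h3.1, h.1⟩, ⟨h3.2, h.2⟩⟩
    by_cases hx : x.1 = x.2
    · rw [if_pos hx]
      refine le_trans ?_ (Nat.le_add_left _ _)
      have hd := S29.diag_pairs (g x.1) (hg x.1) (fun b => tt (x.1, b)) (Finset.range (m ^ 3))
        (fun t => two x.1 t _)
      rw [Finset.card_range] at hd
      refine le_trans ?_ hd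
      refine Finset.card_le_card_of_injOn _ ?_ hinj'
      intro p hp
      obtain ⟨hpF, hpx⟩ := Finset.mem_filter.1 hp
      have h1 : p.1.1 = x.1 := congrArg Prod.fst hpx
      have h2 : p.2.1 = x.1 := (congrArg Prod.snd hpx).trans hx.symm
      obtain ⟨-, h4⟩ := hIJ p hpF
      have hb := hbox p hpF
      simp only [Finset.coe_filter, Set.mem_ofPred_eq]
      refine ⟨Finset.mem_product.2 ⟨hb.1.2, hb.2.2⟩, ?_⟩
      obtain ⟨⟨p1, p2⟩, ⟨p3, p4⟩⟩ := p
      simp only at h1 h2 h4 ⊢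
      subst h1
      subst h2
      exact h4
    · rw [if_neg hx, add_zero]
      have hd := S29.off_pairs hCURVE (f x.1) (f x.2) (g x.1) (g x.2) (hf _) (hf _) (hg _) (hg _)
        (hlead _ _) (fun b => tt (x.1, b)) (fun b => tt (x.2, b)) (Finset.range (m ^ 3))
        (fun t => two x.1 t _) (fun t => two x.2 t _)
        (fun b b' h => hx (hinj (x.1, b) (x.2, b') h.1 h.2))
      refine le_trans ?_ hd
      refine Finset.card_le_card_of_injOn _ ?_ hinj'
      intro p hp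
      obtain ⟨hpF, hpx⟩ := Finset.mem_filter.1 hp
      have h1 : p.1.1 = x.1 := congrArg Prod.fst hpx
      have h2 : p.2.1 = x.2 := congrArg Prod.snd hpx
      have h4 := hIJ p hpF
      have hb := hbox p hpF
      simp only [Finset.coe_filter, Set.mem_ofPred_eq]
      refine ⟨Finset.mem_product.2 ⟨hb.1.2, hb.2.2⟩, ?_⟩
      obtain ⟨⟨p1, p2⟩, ⟨p3, p4⟩⟩ := p
      simp only at h1 h2 h4 ⊢
      rw [← h1, ← h2]
      exact h4
  refine (Finset.sum_le_sum hfib).trans ?_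
  rw [Finset.sum_add_distrib, Finset.sum_const, Finset.card_product, hP, Finset.sum_product]
  simp only [Finset.sum_ite_eq]
  rw [Finset.sum_ite_mem, Finset.inter_self, Finset.sum_const, hP]
  simp only [smul_eq_mul]
  have h6 : m ^ 3 * m ^ 3 = m ^ 6 := by ring
  calc m ^ 3 * m ^ 3 * 800 + m ^ 3 * (10 * m ^ 3) = 810 * m ^ 6 := by ring
    _ ≤ 1000 * m ^ 6 := Nat.mul_le_mul_right _ (by norm_num)

end Pool.Helper34.R9
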